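import Pool.Agent.Helper17.OD.GoalsSO

/-! # RNK: ranks in second order structures (packet RNK of MP_064283_lc) -/

set_option autoImplicit false

namespace Pool.Agent.Helper17.OD.PkRNK

open Set Pool.Agent.Helper17.OD

/-- Approximations of the rank function (all quantifiers bounded). -/
def Ap (k : O) (D0 R f : Set T) : Prop :=
  (∀ x ∈ D (Iio k), ∀ a ∈ D (Iio k), Tr.pr x a ∈ f → x ∈ D0 ∧ a.IsOrd) ∧
  (∀ x ∈ D (Iio k), ∀ a ∈ D (Iio k), Tr.pr x a ∈ f → ∀ y ∈ D (Iio k), Tr.pr y x ∈ R →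
    ∃ a' ∈ D (Iio k), Tr.pr y a' ∈ f) ∧
  (∀ x ∈ D (Iio k), ∀ a ∈ D (Iio k), Tr.pr x a ∈ f → ∀ c ∈ D (Iio k), c.IsOrd →
    (c.llt a ↔ ∃ y ∈ D (Iio k), ∃ a' ∈ D (Iio k), Tr.pr y x ∈ R ∧ Tr.pr y a' ∈ f ∧ ¬ a'.llt c))

/-- Approximations of the rank function. -/
structure Aq (D0 R f : Set T) : Prop where
  dom : ∀ x a, Tr.pr x a ∈ f → x ∈ D0 ∧ ∃ α : O, a = .ord α
  cl : ∀ x a, Tr.pr x a ∈ f → ∀ y, Tr.pr y x ∈ R → ∃ α : O, Tr.pr y (.ord α) ∈ f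
  rc : ∀ (x : T) (α : O), Tr.pr x (.ord α) ∈ f → ∀ γ : O, γ < α ↔
    ∃ (y : T) (β : O), Tr.pr y x ∈ R ∧ Tr.pr y (.ord β) ∈ f ∧ γ ≤ β

theorem isOrd_iff {a : T} : a.IsOrd ↔ ∃ α : O, a = .ord α := by
  cases a <;> simp [Tr.IsOrd]

theorem ap_iff {k : O} {D0 R f : Set T} (hf : f ⊆ D (Iio k)) (hR : R ⊆ D (Iio k)) :
    Ap k D0 R f ↔ Aq D0 R f := by
  have h1 : ∀ {x a : T}, Tr.pr x a ∈ f → x ∈ D (Iio k) ∧ a ∈ D (Iio k) :=
    fun h => pr_mem.1 (hf h)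
  have h2 : ∀ {x a : T}, Tr.pr x a ∈ R → x ∈ D (Iio k) ∧ a ∈ D (Iio k) :=
    fun h => pr_mem.1 (hR h)
  constructor
  · rintro ⟨g1, g2, g3⟩
    have dom : ∀ x a, Tr.pr x a ∈ f → x ∈ D0 ∧ ∃ α : O, a = .ord α := fun x a h => by
      obtain ⟨g4, g5⟩ := g1 x (h1 h).1 a (h1 h).2 h
      exact ⟨g4, isOrd_iff.1 g5⟩
    refine ⟨dom, fun x a h y hy => ?_, fun x α h γ => ?_⟩
    · obtain ⟨a', _, g4⟩ := g2 x (h1 h).1 a (h1 h).2 h y (h2 hy).1 hy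
      obtain ⟨_, α, rfl⟩ := dom _ _ g4
      exact ⟨α, g4⟩
    · by_cases hγ : γ < k
      · have g4 := g3 x (h1 h).1 _ (h1 h).2 h (.ord γ) (ord_mem.2 hγ) trivial
        constructor
        · intro h3
          obtain ⟨y, _, a', _, g5, g6, g7⟩ := g4.1 h3
          obtain ⟨_, β, rfl⟩ := dom _ _ g6
          exact ⟨y, β, g5, g6, not_lt.1 g7⟩
        · rintro ⟨y, β, g5, g6, g7⟩
          exact g4.2 ⟨y, (h2 g5).1, .ord β, (h1 g6).2, g5, g6, not_lt.2 g7⟩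
      · have hα : α < k := ord_mem.1 (h1 h).2
        constructor
        · intro h3
          exact absurd (h3.trans hα) hγ
        · rintro ⟨y, β, g5, g6, g7⟩
          have hβ : β < k := ord_mem.1 (h1 g6).2
          exact absurd (lt_of_le_of_lt g7 hβ) hγ
  · intro h
    refine ⟨fun x _ a _ hx => ?_, fun x _ a _ hx y _ hy => ?_, fun x _ a _ hx c _ hc => ?_⟩
    · obtain ⟨g1, g2⟩ := h.dom x a hx
      exact ⟨g1, isOrd_iff.2 g2⟩
    · obtain ⟨α, g1⟩ := h.cl x a hx y hy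
      exact ⟨_, (h1 g1).2, g1⟩
    · obtain ⟨γ, rfl⟩ := isOrd_iff.1 hc
      obtain ⟨_, α, rfl⟩ := h.dom x a hx
      have g4 := h.rc x α hx γ
      constructor
      · intro h3
        obtain ⟨y, β, g5, g6, g7⟩ := g4.1 h3
        exact ⟨y, (h2 g5).1, .ord β, (h1 g6).2, g5, g6, not_lt.2 g7⟩
      · rintro ⟨y, _, a', _, g5, g6, g7⟩
        obtain ⟨_, β, rfl⟩ := h.dom _ _ g6
        exact g4.2 ⟨y, β, g5, g6, not_lt.1 g7⟩

theorem sd_ap {k : O} {S S' : Set (Set T)} [SOM k S S'] {D0 R : Set T} (hD : D0 ∈ S')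
    (hR : R ∈ S') : SD k S S' (fun _ σ => Ap k D0 R (σ 0)) := by
  unfold Ap
  apply_rules (maxDepth := 400) [SD.exT, SD.allT, SD.exS, SD.allS, SD.isOrd, SD.llt, SD.mem, SD.eq, SD.not, SD.and,
    SD.or, SD.iff, SD.imp, ST.id, ST.fst, ST.snd, ST.pr, ST.nat, ST.ordc, SV.var, SV.par]

theorem sd_val {k : O} {S S' : Set (Set T)} [SOM k S S'] {D0 R : Set T} (hD : D0 ∈ S')
    (hR : R ∈ S') {t : T → T} (ht : ST k t) :
    SD k S S' (fun e _ => ∃ f ∈ S, Ap k D0 R f ∧ t e ∈ f) := by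
  have h1 := sd_ap (k := k) (S := S) (S' := S') hD hR
  exact SD.exS (P := fun e f _ => Ap k D0 R f ∧ t e ∈ f) (h1.and (SD.mem ht (SV.var 0)))

theorem sub_k {k : O} {S S' : Set (Set T)} (h : SOM k S S') {f : Set T} (hf : f ∈ S) :
    f ⊆ D (Iio k) := by
  obtain ⟨d, hd, h1⟩ := h.bdd f hf
  exact h1.trans (D_mono (Iio_subset_Iio hd.le))

/-- every nonempty set in `S` has an `R`-minimal element -/
def Mn (S : Set (Set T)) (R : Set T) : Prop :=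
  ∀ Y ∈ S, Y.Nonempty → ∃ y ∈ Y, ∀ z ∈ Y, Tr.pr z y ∉ R

theorem uniq {k : O} {S S' : Set (Set T)} (h : SOM k S S') {D0 R f g : Set T} {d0 : O}
    (hd0 : d0 < k) (hD0 : D0 = D (Iio d0)) (hm : Mn S R) (hf : f ∈ S) (hg : g ∈ S)
    (hf' : Aq D0 R f) (hg' : Aq D0 R g) {x : T} {α β : O} (h1 : Tr.pr x (.ord α) ∈ f)
    (h2 : Tr.pr x (.ord β) ∈ g) : α = β := by
  by_contra hne
  have := h
  have hSS : SOM k S S := SOM.self (S' := S')
  have hP : SD k S S (fun e _ => ∃ a ∈ D (Iio k), ∃ b ∈ D (Iio k),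
      Tr.pr e a ∈ f ∧ Tr.pr e b ∈ g ∧ ¬ a = b) := by
    apply_rules (maxDepth := 400) [SD.exT, SD.allT, SD.exS, SD.allS, SD.isOrd, SD.llt, SD.mem,
      SD.eq, SD.not, SD.and,
      SD.or, SD.iff, SD.imp, ST.id, ST.fst, ST.snd, ST.pr, ST.nat, ST.ordc, SV.var, SV.par]
  have hY := SOM.sep (S' := S) hP hd0
  have hxy : x ∈ {x | x ∈ D (Iio d0) ∧ ∃ a ∈ D (Iio k), ∃ b ∈ D (Iio k),
      Tr.pr x a ∈ f ∧ Tr.pr x b ∈ g ∧ ¬ a = b} := by
    refine ⟨hD0 ▸ (hf'.dom _ _ h1).1, _, (pr_mem.1 (sub_k h hf h1)).2, _,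
      (pr_mem.1 (sub_k h hg h2)).2, h1, h2, fun h3 => hne ?_⟩
    injection h3
  obtain ⟨y, ⟨_, a, _, b, _, g1, g2, g3⟩, hmin⟩ := hm _ hY ⟨x, hxy⟩
  obtain ⟨_, α', rfl⟩ := hf'.dom _ _ g1
  obtain ⟨_, β', rfl⟩ := hg'.dom _ _ g2
  apply g3
  have key : ∀ z, Tr.pr z y ∈ R → ∀ γ δ : O, Tr.pr z (.ord γ) ∈ f → Tr.pr z (.ord δ) ∈ g →
      γ = δ := by
    intro z hz γ δ h3 h4
    by_contra h5
    refine hmin z ⟨hD0 ▸ (hf'.dom _ _ h3).1, _, (pr_mem.1 (sub_k h hf h3)).2, _,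
      (pr_mem.1 (sub_k h hg h4)).2, h3, h4, fun h6 => h5 ?_⟩ hz
    injection h6
  have e1 : ∀ γ : O, γ < α' ↔ γ < β' := by
    intro γ
    rw [hf'.rc _ _ g1, hg'.rc _ _ g2]
    constructor
    · rintro ⟨z, δ, h3, h4, h5⟩
      obtain ⟨δ', h6⟩ := hg'.cl _ _ g2 z h3
      exact ⟨z, δ', h3, h6, by rw [← key z h3 _ _ h4 h6]; exact h5⟩
    · rintro ⟨z, δ, h3, h4, h5⟩
      obtain ⟨δ', h6⟩ := hf'.cl _ _ g1 z h3
      exact ⟨z, δ', h3, h6, by rw [key z h3 _ _ h6 h4]; exact h5⟩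
  rw [eq_of_forall_lt_iff e1]

theorem sd_gr {k : O} {S S' : Set (Set T)} [SOM k S S'] {A U D0 : Set T} (hA : A ∈ S')
    (hU : U ∈ S') (hD : D0 ∈ S') (h0 : (0 : O) < k) :
    SD k S S' (fun e _ => ∃ x ∈ D (Iio k), ∃ a ∈ D (Iio k), x ∈ A ∧
        e = Tr.pr x a ∧ (Tr.pr x a ∈ U ∨ (¬ x ∈ D0 ∧ a = .ord 0))) := by
  apply_rules (maxDepth := 400) [SD.exT, SD.allT, SD.exS, SD.allS, SD.isOrd, SD.llt, SD.mem,
    SD.eq, SD.not, SD.and,
    SD.or, SD.iff, SD.imp, ST.id, ST.fst, ST.snd, ST.pr, ST.nat, ST.ordc, SV.var, SV.par]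

theorem thm : G_RNK := by
  intro k S S' h R hR hm
  classical
  have := h
  have hlim : Order.IsSuccLimit k := h.lim
  have hk0 : (0 : O) < k := lt_of_le_of_lt (zero_le) h.omg
  obtain ⟨d0, hd0, hRd⟩ := h.bdd R (h.sub hR)
  have hRk : R ⊆ D (Iio k) := sub_k h (h.sub hR)
  obtain ⟨D0, hD0⟩ : ∃ D0 : Set T, D0 = D (Iio d0) := ⟨_, rfl⟩
  have hDm : ∀ d < k, D (Iio d) ∈ S' := by
    intro d hd
    have := SOM.sep (S' := S') (P := fun _ => True) (k := k) (S := S) SD.const hd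
    have e : {x : T | x ∈ D (Iio d) ∧ True} = D (Iio d) := by ext x; simp
    rwa [e] at this
  have hD0m : D0 ∈ S' := hD0 ▸ hDm d0 hd0
  -- the values are bounded
  have hval : ∀ {t : T → T}, ST k t → SD k S S' (fun e _ => ∃ f ∈ S, Ap k D0 R f ∧ t e ∈ f) :=
    fun ht => sd_val hD0m hR ht
  have hPSD : SD k S S' (fun e _ => (∃ f ∈ S, Ap k D0 R f ∧ Tr.pr e.snd e.fst ∈ f) ∨
      ¬ ∃ z ∈ D (Iio k), ∃ f ∈ S, Ap k D0 R f ∧ Tr.pr e.snd z ∈ f) := by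
    refine SD.or (hval (ST.pr (ST.snd ST.id) (ST.fst ST.id))) (SD.not ?_)
    exact SD.exT (P := fun e z _ => ∃ f ∈ S, Ap k D0 R f ∧ Tr.pr e.snd z ∈ f)
      (hval (ST.pr (ST.snd (ST.snd ST.id)) (ST.fst ST.id)))
  obtain ⟨b, hb, hbnd⟩ := SOM.bnd (S' := S') (P := fun x y =>
    (∃ f ∈ S, Ap k D0 R f ∧ Tr.pr x y ∈ f) ∨
      ¬ ∃ z ∈ D (Iio k), ∃ f ∈ S, Ap k D0 R f ∧ Tr.pr x z ∈ f) hPSD hd0 (by
    intro x _
    by_cases hx : ∃ z ∈ D (Iio k), ∃ f ∈ S, Ap k D0 R f ∧ Tr.pr x z ∈ f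
    · obtain ⟨z, hz, hz'⟩ := hx
      exact ⟨z, hz, Or.inl hz'⟩
    · exact ⟨.nat 0, nat_mem _ _, Or.inr hx⟩)
  have apq : ∀ {f : Set T}, f ∈ S → (Ap k D0 R f ↔ Aq D0 R f) := fun hf => ap_iff (sub_k h hf) hRk
  have hvb : ∀ f ∈ S, Aq D0 R f → ∀ (x : T) (α : O), Tr.pr x (.ord α) ∈ f → α < b := by
    intro f hf hf' x α hx
    have hx0 : x ∈ D (Iio d0) := hD0 ▸ (hf'.dom _ _ hx).1
    obtain ⟨y, hy, h1 | h1⟩ := hbnd x hx0
    · obtain ⟨g, hg, hg', h2⟩ := h1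
      have hg'' := (apq hg).1 hg'
      obtain ⟨_, β, rfl⟩ := hg''.dom _ _ h2
      rw [uniq h hd0 hD0 hm hf hg hf' hg'' hx h2]
      exact ord_mem.1 hy
    · exact absurd ⟨_, (pr_mem.1 (sub_k h hf hx)).2, f, hf, (apq hf).2 hf', hx⟩ h1
  have hb1 : Order.succ b < k := hlim.succ_lt hb
  obtain ⟨e, he, hde, hbe⟩ : ∃ e < k, d0 ≤ e ∧ Order.succ b ≤ e :=
    ⟨max d0 (Order.succ b), max_lt hd0 hb1, le_max_left _ _, le_max_right _ _⟩
  -- the union of the approximations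
  obtain ⟨U, hU⟩ : ∃ U : Set T, U = {p | p ∈ D (Iio e) ∧ ∃ f ∈ S, Ap k D0 R f ∧ p ∈ f} :=
    ⟨_, rfl⟩
  have hUm : U ∈ S' := hU ▸ SOM.sep (hval ST.id) he
  have hUmS : U ∈ S := h.sub hUm
  have hUiff : ∀ (x : T) (α : O), Tr.pr x (.ord α) ∈ U ↔
      ∃ f ∈ S, Aq D0 R f ∧ Tr.pr x (.ord α) ∈ f := by
    intro x α
    rw [hU]
    constructor
    · rintro ⟨_, f, hf, hf', h1⟩
      exact ⟨f, hf, (apq hf).1 hf', h1⟩
    · rintro ⟨f, hf, hf', h1⟩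
      refine ⟨pr_mem.2 ⟨?_, ord_mem.2 ?_⟩, f, hf, (apq hf).2 hf', h1⟩
      · exact D_mono (Iio_subset_Iio hde) (hD0 ▸ (hf'.dom _ _ h1).1)
      · exact lt_of_lt_of_le ((hvb f hf hf' x α h1).trans (Order.lt_succ b)) hbe
  have hUq : Aq D0 R U := by
    have hdom : ∀ x a, Tr.pr x a ∈ U → x ∈ D0 ∧ ∃ α : O, a = .ord α := by
      intro x a h1
      rw [hU] at h1
      obtain ⟨_, f, hf, hf', h2⟩ := h1
      exact ((apq hf).1 hf').dom _ _ h2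
    refine ⟨hdom, ?_, ?_⟩
    · intro x a h1 y hy
      obtain ⟨_, α, rfl⟩ := hdom _ _ h1
      obtain ⟨f, hf, hf', h2⟩ := (hUiff _ _).1 h1
      obtain ⟨β, h3⟩ := hf'.cl _ _ h2 y hy
      exact ⟨β, (hUiff _ _).2 ⟨f, hf, hf', h3⟩⟩
    · intro x α h1 γ
      obtain ⟨f, hf, hf', h2⟩ := (hUiff _ _).1 h1
      rw [hf'.rc _ _ h2]
      constructor
      · rintro ⟨y, β, h3, h4, h5⟩
        exact ⟨y, β, h3, (hUiff _ _).2 ⟨f, hf, hf', h4⟩, h5⟩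
      · rintro ⟨y, β, h3, h4, h5⟩
        obtain ⟨β', h6⟩ := hf'.cl _ _ h2 y h3
        obtain ⟨g, hg, hg', h7⟩ := (hUiff _ _).1 h4
        have := uniq h hd0 hD0 hm hf hg hf' hg' h6 h7
        subst this
        exact ⟨y, β', h3, h6, h5⟩
  have huU : ∀ {x : T} {α β : O}, Tr.pr x (.ord α) ∈ U → Tr.pr x (.ord β) ∈ U → α = β :=
    fun h1 h2 => uniq h hd0 hD0 hm hUmS hUmS hUq hUq h1 h2
  -- totality
  have htot : ∀ x ∈ D0, ∃ α : O, Tr.pr x (.ord α) ∈ U := by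
    by_contra hcon
    push Not at hcon
    obtain ⟨x0, hx0, hx0'⟩ := hcon
    have hP : SD k S S' (fun e _ => ¬ ∃ a ∈ D (Iio k), Tr.pr e a ∈ U) := by
      apply_rules (maxDepth := 400) [SD.exT, SD.allT, SD.exS, SD.allS, SD.isOrd, SD.llt, SD.mem,
        SD.eq, SD.not, SD.and,
        SD.or, SD.iff, SD.imp, ST.id, ST.fst, ST.snd, ST.pr, ST.nat, ST.ordc, SV.var, SV.par]
    have hY := SOM.sep hP hd0
    obtain ⟨x, ⟨hx, hx'⟩, hmin⟩ := hm _ (h.sub hY) ⟨x0, hD0 ▸ hx0, by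
      rintro ⟨a, _, ha⟩
      obtain ⟨_, α, rfl⟩ := hUq.dom _ _ ha
      exact hx0' α ha⟩
    have hpre : ∀ z, Tr.pr z x ∈ R → ∃ α : O, Tr.pr z (.ord α) ∈ U := by
      intro z hz
      by_contra hcon
      refine hmin z ⟨(pr_mem.1 (hRd hz)).1, ?_⟩ hz
      rintro ⟨a, _, ha⟩
      obtain ⟨_, α, rfl⟩ := hUq.dom _ _ ha
      exact hcon ⟨α, ha⟩
    -- the new value
    obtain ⟨s, hs, hsle⟩ : ∃ s : O, (∀ γ : O, γ < s ↔ ∃ (y : T) (β : O), Tr.pr y x ∈ R ∧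
        Tr.pr y (.ord β) ∈ U ∧ γ ≤ β) ∧ s ≤ b := by
      let A : Set O := {s | ∀ (y : T) (β : O), Tr.pr y x ∈ R → Tr.pr y (.ord β) ∈ U → β < s}
      have hbA : b ∈ A := fun y β _ h2 => hvb U hUmS hUq y β h2
      refine ⟨sInf A, fun γ => ?_, csInf_le (OrderBot.bddBelow _) hbA⟩
      have hmem : sInf A ∈ A := csInf_mem ⟨b, hbA⟩
      constructor
      · intro h1
        by_contra hcon
        have : γ ∈ A := by
          intro y β h2 h3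
          by_contra h4
          exact hcon ⟨y, β, h2, h3, not_lt.1 h4⟩
        exact absurd (csInf_le (OrderBot.bddBelow _) this) (not_le.2 h1)
      · rintro ⟨y, β, h2, h3, h4⟩
        exact lt_of_le_of_lt h4 (hmem y β h2 h3)
    have hxe : x ∈ D (Iio e) := D_mono (Iio_subset_Iio hde) hx
    have hse : (Tr.ord s : T) ∈ D (Iio e) :=
      ord_mem.2 (lt_of_lt_of_le (lt_of_le_of_lt hsle (Order.lt_succ b)) hbe)
    have hek : D (Iio e) ⊆ D (Iio k) := D_mono (Iio_subset_Iio he.le)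
    have hWm : insert (Tr.pr x (.ord s)) U ∈ S := by
      have hSS : SOM k S S := SOM.self (S' := S')
      have hPp : SD k S S (fun e _ => e = Tr.pr x (.ord s) ∨ e ∈ U) :=
        SD.or (SD.eq ST.id (ST.const (pr_mem.2 ⟨hek hxe, hek hse⟩)))
          (SD.mem ST.id (SV.par hUmS))
      refine SOM.of_SD (S' := S) (d := e) he ?_ hPp
      rintro p (rfl | hp)
      · exact pr_mem.2 ⟨hxe, hse⟩
      · rw [hU] at hp
        exact hp.1
    have hxU : ∀ a, Tr.pr x a ∉ U := fun a ha =>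
      hx' ⟨a, (pr_mem.1 (sub_k h hUmS ha)).2, ha⟩
    have hxx : Tr.pr x x ∉ R := fun h1 => by
      obtain ⟨α, hα⟩ := hpre x h1
      exact hxU _ hα
    have hWin : ∀ {y : T}, y ≠ x → ∀ {a : T}, Tr.pr y a ∈ insert (Tr.pr x (.ord s)) U →
        Tr.pr y a ∈ U := by
      rintro y hy a (h1 | h1)
      · injection h1 with h2 h3
        exact absurd h2 hy
      · exact h1
    have hWq : Aq D0 R (insert (Tr.pr x (.ord s)) U) := by
      refine ⟨?_, ?_, ?_⟩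
      · rintro y a (h1 | h1)
        · injection h1 with h2 h3
          subst h2 h3
          exact ⟨hD0 ▸ hx, s, rfl⟩
        · exact hUq.dom _ _ h1
      · rintro y a (h1 | h1) z hz
        · injection h1 with h2 h3
          subst h2
          obtain ⟨α, h4⟩ := hpre z hz
          exact ⟨α, Or.inr h4⟩
        · obtain ⟨α, h4⟩ := hUq.cl _ _ h1 z hz
          exact ⟨α, Or.inr h4⟩
      · rintro y α (h1 | h1) γ
        · injection h1 with h2 h3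
          injection h3 with h3
          subst h2 h3
          rw [hs]
          constructor
          · rintro ⟨z, β, h4, h5, h6⟩
            exact ⟨z, β, h4, Or.inr h5, h6⟩
          · rintro ⟨z, β, h4, h5, h6⟩
            refine ⟨z, β, h4, hWin ?_ h5, h6⟩
            rintro rfl
            exact hxx h4
        · rw [hUq.rc _ _ h1]
          constructor
          · rintro ⟨z, β, h4, h5, h6⟩
            exact ⟨z, β, h4, Or.inr h5, h6⟩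
          · rintro ⟨z, β, h4, h5, h6⟩
            refine ⟨z, β, h4, hWin ?_ h5, h6⟩
            rintro rfl
            obtain ⟨δ, h7⟩ := hUq.cl _ _ h1 z h4
            exact hxU _ h7
    exact hxU _ ((hUiff x s).2 ⟨_, hWm, hWq, Or.inl rfl⟩)
  -- the rank
  obtain ⟨ρ, hρ, hρ0⟩ : ∃ ρ : T → O, (∀ x ∈ D0, Tr.pr x (.ord (ρ x)) ∈ U) ∧
      ∀ x, x ∉ D0 → ρ x = 0 := by
    refine ⟨fun x => if hx : x ∈ D0 then (htot x hx).choose else 0, fun x hx => ?_,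
      fun x hx => ?_⟩
    · simp only [dif_pos hx]
      exact (htot x hx).choose_spec
    · simp only [dif_neg hx]
  have hρb : ∀ x, ρ x < Order.succ b := by
    intro x
    by_cases hx : x ∈ D0
    · exact (hvb U hUmS hUq x _ (hρ x hx)).trans (Order.lt_succ b)
    · rw [hρ0 x hx]
      exact lt_of_le_of_lt (zero_le) (Order.lt_succ b)
  have hRD : ∀ {y x : T}, Tr.pr y x ∈ R → y ∈ D0 ∧ x ∈ D0 := by
    intro y x h1
    rw [hD0]
    exact pr_mem.1 (hRd h1)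
  have hrec : ∀ (x : T) (a : O), a < ρ x ↔ ∃ y, Tr.pr y x ∈ R ∧ a ≤ ρ y := by
    intro x a
    by_cases hx : x ∈ D0
    · rw [hUq.rc _ _ (hρ x hx)]
      constructor
      · rintro ⟨y, β, h1, h2, h3⟩
        refine ⟨y, h1, ?_⟩
        rw [huU (hρ y (hRD h1).1) h2]
        exact h3
      · rintro ⟨y, h1, h2⟩
        exact ⟨y, ρ y, h1, hρ y (hRD h1).1, h2⟩
    · constructor
      · intro h1
        rw [hρ0 x hx] at h1
        exact absurd h1 (not_lt.2 (zero_le))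
      · rintro ⟨y, h1, _⟩
        exact absurd (hRD h1).2 hx
  refine ⟨?_, ρ, Order.succ b, hb1, hρb, hrec, ?_, ?_⟩
  · refine Subrelation.wf (r := fun x y : T => ρ x < ρ y) ?_ (InvImage.wf ρ wellFounded_lt)
    intro x y hxy
    exact (hrec y (ρ x)).2 ⟨x, hxy, le_rfl⟩
  · intro x hx
    by_contra h1
    obtain ⟨y, hy, _⟩ := (hrec x 0).1 (pos_iff_ne_zero.2 h1)
    exact hx y hy
  · intro d hd
    have hdk : D (Iio d) ⊆ D (Iio k) := D_mono (Iio_subset_Iio hd.le)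
    have hDd := hDm d hd
    have hP := sd_gr (k := k) (S := S) (S' := S') hDd hUm hD0m hk0
    refine SOM.of_SD (S' := S') (k := k) (S := S) (d := max d (Order.succ b)) (max_lt hd hb1) ?_
      (hP.congr ?_)
    · rintro _ ⟨x, hx, rfl⟩
      exact pr_mem.2 ⟨D_mono (Iio_subset_Iio (le_max_left _ _)) hx,
        ord_mem.2 (lt_of_lt_of_le (hρb x) (le_max_right _ _))⟩
    · intro p _ _ _
      constructor
      · rintro ⟨x, _, a, _, hx, rfl, h1 | ⟨h1, rfl⟩⟩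
        · obtain ⟨h2, α, rfl⟩ := hUq.dom _ _ h1
          refine ⟨x, hx, ?_⟩
          show Tr.pr x (Tr.ord α) = Tr.pr x (Tr.ord (ρ x))
          rw [huU (hρ x h2) h1]
        · refine ⟨x, hx, ?_⟩
          show Tr.pr x (Tr.ord 0) = Tr.pr x (Tr.ord (ρ x))
          rw [hρ0 x h1]
      · rintro ⟨x, hx, rfl⟩
        refine ⟨x, hdk hx, _, ord_mem.2 ((hρb x).trans hb1), hx, rfl, ?_⟩
        by_cases h1 : x ∈ D0
        · exact Or.inl (hρ x h1)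
        · refine Or.inr ⟨h1, ?_⟩
          show (Tr.ord (ρ x) : T) = Tr.ord 0
          rw [hρ0 x h1]

end Pool.Agent.Helper17.OD.PkRNK
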